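import Pool.Agent.Q57.FH.Sec

/-!
Divisorial places with given multiplicities, for covers of products of projective spaces.
-/

set_option autoImplicit false
set_option linter.overlappingInstances false
set_option linter.unusedSectionVars false
set_option maxHeartbeats 1000000

open FF MvPolynomial IntermediateField Pool.Agent.W603.LV Pool.Agent.W619.PQ
open Pool.Agent.W619.TW Pool.Agent.W602.GT Pool.Agent.TH122.AB Pool.Agent.TH756.PN
open Pool.Agent.Y169.CH Pool.Agent.Y169.CH.Cvr Pool.Agent.Q57.TP Pool.Agent.Q57.TQ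
open Pool.Agent.Q57.GH

namespace Pool.Agent.Q57.GE

variable {d r : ℕ} {Φ : Blk ℂ (d + 1) r} {K : Type} [Field K] [Algebra ℂ K] {R : ℕ}
  (C : Cvr Φ K R)

/-- there is a divisorial place whose vector of multiplicities is on a given ray -/
theorem exists_place (hΦ : Smo Φ) (X : C.Dir) :
    ∃ (P : Place ℂ K) (v' : Fin r → ℕ) (r' : ℕ), Divisorial (d + 1) P ∧ MultH C P v' ∧
      Adm C.M C.a v' ∧ 1 ≤ r' ∧ X.v = r' • v' := by
  classical
  obtain ⟨K', iF, iA, iK, hT, G0, G, fG0, fG, hGG, a1, a2, a3, a4, b1, b2, b3, b4, Y, X', hY, hX,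
    hYK, hXZ, hbX⟩ := exists_closure2 C.hZ C.bas_Y C.adj_le C.fin_Y
  obtain ⟨DY, hDY0⟩ := exists_dual C.bas_Y
  have hDY : ∀ i j, DY i (C.Y j) = if i = j then 1 else 0 := by
    intro i j
    have h1 := congrFun (congrFun hDY0 i) j
    rw [Matrix.of_apply, Matrix.one_apply] at h1
    exact h1
  obtain ⟨v, hv⟩ : ∃ v : Place ℂ (fixedField G0), ∀ P : MvPolynomial (Fin (d + 1)) ℂ, P ≠ 0 →
      v.ord (aeval Y P) = mord (fun b => if b = Φ.c (Φ.τ b) then X.lam (Φ.τ b) else 0) P := by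
    refine exists_mono hY _ ?_
    obtain ⟨a, b, hab⟩ := X.hone
    have hpt : ∀ a : Fin r → ℕ, wt (fun b => if b = Φ.c (Φ.τ b) then X.lam (Φ.τ b) else 0)
        (Finsupp.equivFunOnFinite.symm fun b => a (Φ.τ b)) = ∑ t, X.lam t * a t := by
      intro a
      rw [wt_piv]
      refine Finset.sum_congr rfl fun t _ => ?_
      rw [Finsupp.coe_equivFunOnFinite_symm, Φ.hc]
    exact ⟨Finsupp.equivFunOnFinite.symm fun b => a (Φ.τ b),
      Finsupp.equivFunOnFinite.symm fun c => b (Φ.τ c), by rw [hpt, hpt, hab]⟩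
  obtain ⟨w, e, I, hw, hIc, hI⟩ := exists_inertia G0 v
  have hg1 : (1 : K' ≃ₐ[ℂ] K') ∈ G0 := one_mem _
  obtain ⟨P, e1, e2, h1, h2, he⟩ := exists_restr (K := K) (over_comp hw hg1)
  obtain ⟨t0, ht0⟩ := Dir.ne C X
  obtain ⟨hdvd, hreg⟩ := C.ramT hΦ hY hYK hDY X.lam hv hw hI hIc hg1 h1 h2 he (N := X.N)
    fun i => by
      have := X.hT i
      simpa only [X.hv] using this
  obtain ⟨r', hr1, hNr, hTv, hvv0⟩ := exists_mulH C X h2.1 hdvd
  have hadm : Adm C.M C.a (fun t => e2 * X.lam t) := by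
    refine ⟨hvv0, fun j => ?_⟩
    exact div_adm C hYK X.lam hv h2 j
  obtain ⟨l, hl⟩ : ∃ l : Fin (d + 1) → ℕ, l = fun b => if b = Φ.c (Φ.τ b) then X.lam (Φ.τ b) else 0 :=
    ⟨_, rfl⟩
  rw [← hl] at hv
  have hlc : ∀ t, l (Φ.c t) = X.lam t := by
    intro t
    rw [hl]
    dsimp only
    rw [Φ.hc, if_pos rfl]
  have hdiv : Divisorial (d + 1) P := div_mono hY l (b := Φ.c t0) (by rw [hlc]; exact ht0) hv h2
  refine ⟨P, fun t => e2 * X.lam t, r', hdiv, ?_, hadm, hr1, hTv⟩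
  have hordY : ∀ b, P.ord (algebraMap (fixedField G0) K (Y b)) = e2 * l b := by
    intro b
    have h3 := hv (MvPolynomial.X b) (X_ne_zero _)
    rw [aeval_X] at h3
    have h5 : (MvPolynomial.X b : MvPolynomial (Fin (d + 1)) ℂ) =
      monomial (Finsupp.single b 1) 1 := rfl
    rw [h2.2, h3, h5, mord_monomial]
    have h6 : Pool.Agent.Y169.CH.wt l (Finsupp.single b 1) = l b := by
      unfold Pool.Agent.Y169.CH.wt
      rw [Finset.sum_eq_single b]
      · simp
      · intro c _ hc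
        rw [Finsupp.single_apply, if_neg (Ne.symm hc), mul_zero]
      · intro h
        exact absurd (Finset.mem_univ _) h
    rw [h6]
  have h4' : ∀ t, P.ord (aeval C.Z (Φ.F t)) = (e2 : ℤ) * l (Φ.c t) := by
    intro t
    rw [← C.Y_c, ← hYK]
    exact hordY _
  have h6 := multH_reg C hreg
  have h7 : (fun t => (P.ord (aeval C.Z (Φ.F t))).toNat) = fun t => e2 * X.lam t := by
    funext t
    rw [h4', hlc]
    exact_mod_cast Int.toNat_natCast (e2 * X.lam t)
  rw [h7] at h6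
  exact h6

end Pool.Agent.Q57.GE
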