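import Pool.Agent.Q57.GH.Mod

/-!
The sections of the points of the dual lattice, for covers of products of projective spaces.
-/

set_option autoImplicit false
set_option linter.overlappingInstances false
set_option linter.unusedSectionVars false
set_option maxHeartbeats 1000000

open FF MvPolynomial Pool.Agent.W603.LV Pool.Agent.W602.GT Pool.Agent.W602.Cov
open Pool.Agent.TH756.PR Pool.Agent.TH122.AB Pool.Agent.TH756.PN
open Pool.Agent.Y169.CH Pool.Agent.Q57.TP Pool.Agent.Q57.TQ Pool.Agent.Q57.GH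

namespace Pool.Agent.Q57.GE

variable {r R N' : ℕ} {n : Fin r → ℕ} {K : Type} [Field K] [Algebra ℂ K]
  {e : ((i : Fin r) × Fin (n i)) ≃ Fin (N' + 1)} {Φ : Blk ℂ (N' + 1) r} {C : Cvr Φ K R}
  {dF : Fin r → ℕ} {x : ∀ i, Fin (n i + 1) → K} {F : ∀ i, MvPolynomial (Fin (n i + 1)) ℂ}
  {c : (Fin r → ℕ) → ℚ} {δ : Place ℂ K → ℚ}

theorem z_ne (j : Fin R) : C.z j ≠ 0 := by
  intro h0
  have h1 := C.hz j
  rw [h0, zero_pow (C.hM j).ne'] at h1
  exact (Finset.prod_ne_zero_iff.2 fun i _ => pow_ne_zero _ (C.F_ne i)) h1.symm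

/-- the degrees of the roots -/
def qd (C : Cvr Φ K R) (dF : Fin r → ℕ) (j : Fin R) (i : Fin r) : ℕ := C.a j i * dF i / C.M j

theorem qd_mul (H : Mon e C dF x F) (j : Fin R) (i : Fin r) :
    qd C dF j i * C.M j = C.a j i * dF i := by
  unfold qd
  refine Nat.div_mul_cancel ?_
  have h1 := C.hdiv j i
  rwa [H.hΦD] at h1

/-- the degree of the coordinate in the section -/
def dg (C : Cvr Φ K R) (dF : Fin r → ℕ) (n : Fin r → ℕ) (m : ℕ) (y : Fin r → ℤ) (k : Fin R → ℤ)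
    (i : Fin r) : ℤ :=
  ((dF i : ℤ) - n i - 1) * m - dF i * y i - ∑ j, k j * qd C dF j i

/-- the function of a point of the dual lattice -/
noncomputable def fL (C : Cvr Φ K R) (dF : Fin r → ℕ) (x : ∀ i, Fin (n i + 1) → K)
    (F : ∀ i, MvPolynomial (Fin (n i + 1)) ℂ) (m : ℕ) (y : Fin r → ℤ) (k : Fin R → ℤ)
    (l : ∀ i, Fin (n i + 1)) : K :=
  (∏ j, C.z j ^ k j) * ∏ i, (aeval (x i) (F i) ^ (y i - m) * x i 0 ^ (∑ j, k j * (qd C dF j i : ℤ)) *
    x i (l i) ^ dg C dF n m y k i)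

theorem fL_ne (H : Mon e C dF x F) (m : ℕ) (y : Fin r → ℤ) (k : Fin R → ℤ)
    (l : ∀ i, Fin (n i + 1)) : fL C dF x F m y k l ≠ 0 :=
  mul_ne_zero (Finset.prod_ne_zero_iff.2 fun j _ => zpow_ne_zero _ (z_ne j))
    (Finset.prod_ne_zero_iff.2 fun i _ => mul_ne_zero (mul_ne_zero (zpow_ne_zero _ (H.hFx i))
      (zpow_ne_zero _ (H.hx i _))) (zpow_ne_zero _ (H.hx i _)))

theorem ord_z (H : Mon e C dF x F) {P : Place ℂ K} {α : Fin r → ℤ}
    {l' : ∀ i, Fin (n i + 1)} {v : Fin r → ℕ} (h : DatH P dF x F α l' v) (j : Fin R) :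
    (P.ord (C.z j) : ℚ) = ∑ i, ((qd C dF j i : ℚ) * (α i - P.ord (x i 0)) +
      (C.a j i / C.M j : ℚ) * v i) := by
  have h1 := congrArg P.ord (C.hz j)
  rw [P.ord_pow, ord_prod' P Finset.univ _ fun i _ => pow_ne_zero _ (C.F_ne i)] at h1
  have h2 : ∀ i, P.ord (aeval C.Z (Φ.F i) ^ C.a j i) =
      C.a j i * (dF i * (α i - P.ord (x i 0)) + v i) := by
    intro i
    rw [P.ord_pow, h.ordF H]
  rw [Finset.sum_congr rfl fun i _ => h2 i] at h1
  have hM : (C.M j : ℚ) ≠ 0 := by exact_mod_cast (C.hM j).ne'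
  have h3 : (C.M j : ℚ) * P.ord (C.z j) =
      ∑ i, (C.a j i : ℚ) * (dF i * (α i - P.ord (x i 0)) + v i) := by exact_mod_cast h1
  refine mul_left_cancel₀ hM ?_
  rw [h3, Finset.mul_sum]
  refine Finset.sum_congr rfl fun i _ => ?_
  have h4 : (qd C dF j i : ℚ) * C.M j = C.a j i * dF i := by exact_mod_cast qd_mul H j i
  have h5 : (C.M j : ℚ) * (C.a j i / C.M j * v i) = C.a j i * v i := by
    field_simp
  have h6 : (C.M j : ℚ) * ((qd C dF j i : ℚ) * (α i - P.ord (x i 0))) =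
      (C.a j i * dF i) * (α i - P.ord (x i 0)) := by
    rw [← h4]
    ring
  have h7 : (C.M j : ℚ) * ((qd C dF j i : ℚ) * (α i - P.ord (x i 0)) +
      C.a j i / C.M j * v i) = (C.M j : ℚ) * ((qd C dF j i : ℚ) * (α i - P.ord (x i 0))) +
      (C.M j : ℚ) * (C.a j i / C.M j * v i) := mul_add _ _ _
  rw [h7, h6, h5]
  ring

/-- the coordinates of the point of the dual lattice -/
def uL (C : Cvr Φ K R) (y : Fin r → ℤ) (k : Fin R → ℤ) (i : Fin r) : ℚ :=
  y i + ∑ j, (k j : ℚ) * (C.a j i / C.M j)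

theorem dg_eq (H : Mon e C dF x F) (m : ℕ) (y : Fin r → ℤ) (k : Fin R → ℤ) (i : Fin r) :
    (dg C dF n m y k i : ℚ) = ((dF i : ℚ) - n i - 1) * m - dF i * uL C y k i := by
  unfold dg uL
  push_cast
  rw [mul_add, Finset.mul_sum]
  have h1 : ∑ j, (k j : ℚ) * (qd C dF j i : ℚ) =
      ∑ j, (dF i : ℚ) * ((k j : ℚ) * (C.a j i / C.M j)) := by
    refine Finset.sum_congr rfl fun j _ => ?_
    have hM : (C.M j : ℚ) ≠ 0 := by exact_mod_cast (C.hM j).ne'
    have h4 : (qd C dF j i : ℚ) = C.a j i * dF i / C.M j := by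
      rw [eq_div_iff hM]
      exact_mod_cast qd_mul H j i
    rw [h4]
    ring
  rw [h1]
  ring

theorem ord_fL (H : Mon e C dF x F) {P : Place ℂ K} {α : Fin r → ℤ}
    {l' : ∀ i, Fin (n i + 1)} {v : Fin r → ℕ} (h : DatH P dF x F α l' v) (m : ℕ)
    (y : Fin r → ℤ) (k : Fin R → ℤ) (l : ∀ i, Fin (n i + 1)) :
    (P.ord (fL C dF x F m y k l) : ℚ) = - (m * ∑ i, ((n i : ℚ) + 1) * α i) +
      ∑ i, (v i : ℚ) * uL C y k i - m * ∑ i, (v i : ℚ) +
      ∑ i, (dg C dF n m y k i : ℚ) * (P.ord (x i (l i)) - α i) := by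
  have hz0 := Finset.prod_ne_zero_iff.2 fun (j : Fin R) (_ : j ∈ Finset.univ) =>
    zpow_ne_zero (k j) (z_ne (C := C) j)
  have hp0 := Finset.prod_ne_zero_iff.2 fun (i : Fin r) (_ : i ∈ Finset.univ) =>
    mul_ne_zero (mul_ne_zero (zpow_ne_zero (y i - m) (H.hFx i))
      (zpow_ne_zero (∑ j, k j * (qd C dF j i : ℤ)) (H.hx i 0)))
      (zpow_ne_zero (dg C dF n m y k i) (H.hx i (l i)))
  unfold fL
  rw [P.ord_mul hz0 hp0, ord_prod' P Finset.univ _ fun j _ => zpow_ne_zero _ (z_ne j),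
    ord_prod' P Finset.univ _ fun i _ => mul_ne_zero (mul_ne_zero (zpow_ne_zero _ (H.hFx i))
      (zpow_ne_zero _ (H.hx i 0))) (zpow_ne_zero _ (H.hx i _))]
  have h1 : ∀ i, P.ord (aeval (x i) (F i) ^ (y i - m) *
      x i 0 ^ (∑ j, k j * (qd C dF j i : ℤ)) * x i (l i) ^ dg C dF n m y k i) =
      (y i - m) * (dF i * α i + v i) + (∑ j, k j * (qd C dF j i : ℤ)) * P.ord (x i 0) +
        dg C dF n m y k i * P.ord (x i (l i)) := by
    intro i
    rw [P.ord_mul (mul_ne_zero (zpow_ne_zero _ (H.hFx i)) (zpow_ne_zero _ (H.hx i 0)))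
      (zpow_ne_zero _ (H.hx i _)), P.ord_mul (zpow_ne_zero _ (H.hFx i)) (zpow_ne_zero _ (H.hx i 0)),
      P.ord_zpow, P.ord_zpow, P.ord_zpow, h.hv]
  rw [Finset.sum_congr rfl fun i _ => h1 i]
  push_cast
  have h2 : ∑ j, (P.ord (C.z j ^ k j) : ℚ) = ∑ i, ∑ j, (k j : ℚ) *
      ((qd C dF j i : ℚ) * (α i - P.ord (x i 0)) + (C.a j i / C.M j : ℚ) * v i) := by
    rw [Finset.sum_comm]
    refine Finset.sum_congr rfl fun j _ => ?_
    rw [P.ord_zpow, Int.cast_mul, ord_z H h, Finset.mul_sum]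
  rw [h2, Finset.mul_sum, Finset.mul_sum, ← Finset.sum_add_distrib, ← Finset.sum_neg_distrib,
    ← Finset.sum_add_distrib, ← Finset.sum_sub_distrib, ← Finset.sum_add_distrib]
  refine Finset.sum_congr rfl fun i _ => ?_
  have h3 := dg_eq H m y k i
  have h5 : (dg C dF n m y k i : ℚ) = ((dF i : ℚ) - n i - 1) * m - dF i * y i -
      ∑ j, (k j : ℚ) * (qd C dF j i : ℚ) := by
    unfold dg
    push_cast
    rfl
  have h4 : ∑ j, (k j : ℚ) * ((qd C dF j i : ℚ) * (α i - P.ord (x i 0)) +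
      (C.a j i / C.M j : ℚ) * v i) = (∑ j, (k j : ℚ) * (qd C dF j i : ℚ)) *
        (α i - P.ord (x i 0)) + (∑ j, (k j : ℚ) * (C.a j i / C.M j)) * v i := by
    rw [Finset.sum_mul, Finset.sum_mul, ← Finset.sum_add_distrib]
    exact Finset.sum_congr rfl fun j _ => by ring
  rw [h4]
  unfold uL
  obtain ⟨S, hS⟩ : ∃ S : ℚ, S = ∑ j, (k j : ℚ) * (qd C dF j i : ℚ) := ⟨_, rfl⟩
  rw [← hS] at h5 ⊢
  rw [h5]
  ring

/-- the section of a point of the dual lattice -/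
noncomputable def sL (e : ((i : Fin r) × Fin (n i)) ≃ Fin (N' + 1)) (C : Cvr Φ K R)
    (dF : Fin r → ℕ) (x : ∀ i, Fin (n i + 1) → K) (F : ∀ i, MvPolynomial (Fin (n i + 1)) ℂ) (m : ℕ)
    (y : Fin r → ℤ) (k : Fin R → ℤ) (l : ∀ i, Fin (n i + 1))
    (D : Fin (N' + 1) → Derivation ℂ K K) : K :=
  om e D x ^ m * fL C dF x F m y k l

theorem sL_sec (H : Mon e C dF x F) (hcf : CoefH C c δ) {m : ℕ} {y : Fin r → ℤ} {k : Fin R → ℤ}
    (hy : ∀ i, dF i * uL C y k i ≤ ((dF i : ℚ) - n i - 1) * m)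
    (hadm : ∀ v, Adm C.M C.a v → (m : ℚ) * (1 - c v) ≤ ∑ i, (v i : ℚ) * uL C y k i)
    (l : ∀ i, Fin (n i + 1)) : BSec (N' + 1) δ {1} m 1 (sL e C dF x F m y k l) := by
  classical
  refine ⟨?_, ?_⟩
  · intro A D
    unfold sL
    rw [om_lin, mul_pow]
    ring
  · intro P _ D hD
    obtain ⟨α, l', v, h⟩ := H.exists_dat P
    have hom := om_ord e H.hn P D hD H.hx (by rw [← H.hZ]; exact C.hZ) H.hs H.hh H.hFx α h.h1 l'
      h.h2 v h.hv
    have h2 := (hom.pow m).mul (ge_ord P (fL C dF x F m y k l))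
    unfold sL
    rcases h2 with h2 | h2
    · exact Or.inl h2
    · right
      refine ⟨1, by simp, one_ne_zero, ?_⟩
      rw [P.ord_one, hcf.hδ P v (h.multH H)]
      have h3 := ord_fL H h m y k l
      have h4 : (0 : ℚ) ≤ ∑ i, (dg C dF n m y k i : ℚ) * (P.ord (x i (l i)) - α i) := by
        refine Finset.sum_nonneg fun i _ => mul_nonneg ?_ ?_
        · rw [dg_eq H]
          linarith [hy i]
        · have h5 := h.h1 i (l i)
          have h6 : ((α i : ℤ) : ℚ) ≤ (P.ord (x i (l i)) : ℚ) := by exact_mod_cast h5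
          linarith
      have h5 : (m : ℚ) * ((if v = 0 then 0 else 1) - c v) ≤ ∑ i, (v i : ℚ) * uL C y k i := by
        by_cases hv : v = 0
        · rw [if_pos hv, hv, hcf.h0]
          simp
        · rw [if_neg hv]
          exact hadm v (h.adm H hv)
      have h9 : (((if v = 0 then (0 : ℤ) else 1) : ℤ) : ℚ) = if v = 0 then 0 else 1 := by
        split_ifs <;> simp
      have h10 := (Int.cast_le (R := ℚ)).2 h2
      rw [Int.cast_add, h3] at h10
      push_cast at h5 h10 ⊢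
      have h11 : (m : ℚ) * (∑ i, ((n i : ℚ) + 1) * α i + ∑ i, (v i : ℚ) - if v = 0 then 0 else 1) =
          m * ∑ i, ((n i : ℚ) + 1) * α i + m * ∑ i, (v i : ℚ) - m * (if v = 0 then 0 else 1) := by
        ring
      linarith

end Pool.Agent.Q57.GE
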