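import Pool.Agent.Q57.GE.Dual
import Pool.Agent.Q57.GE.Plc
import Pool.Agent.Q57.GE.SecL
import Pool.Agent.Q57.GG.GeoB
import Pool.Agent.Q57.GG.NefR
import Pool.Agent.Q57.GM.Nef

/-!
Base point freeness of nef Cartier multiples of log canonical divisors, for toroidal models of covers
of products of projective spaces.
-/

set_option autoImplicit false
set_option linter.overlappingInstances false
set_option linter.unusedSectionVars false
set_option maxHeartbeats 1000000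

open FF MvPolynomial Pool.Agent.W603.LV Pool.Agent.W602.GT Pool.Agent.W602.Cov
open Pool.Agent.TH756.PR Pool.Agent.TH122.AB Pool.Agent.TH756.PN
open Pool.Agent.Y169.CH Pool.Agent.Y169.CH.Cvr Pool.Agent.Q57.TP Pool.Agent.Q57.TQ
open Pool.Agent.Q57.GM Pool.Agent.Q57.GH Pool.Agent.Q57.FG Pool.Agent.Q57.FH Pool.Agent.Q57.GG

namespace Pool.Agent.Q57.GE

section cone

variable {r R : ℕ}

/-- the vector is in the cone generated by the vectors in `σ` -/
def InC (σ : Finset (Fin r → ℕ)) (v : Fin r → ℕ) : Prop :=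
  ∃ w : (Fin r → ℕ) → ℚ, (∀ s, 0 ≤ w s) ∧ ∀ k, (v k : ℚ) = ∑ s ∈ σ, w s * s k

/-- the function `1 - c` is linear on the cones of a fan -/
structure FanC (M : Fin R → ℕ) (a : Fin R → Fin r → ℕ) (S : Finset (Finset (Fin r → ℕ)))
    (c : (Fin r → ℕ) → ℚ) : Prop where
  adm : ∀ σ ∈ S, ∀ s ∈ σ, Adm M a s
  full : ∀ σ ∈ S, ∀ f : Fin r → ℚ, ∃ q : (Fin r → ℕ) → ℚ, ∀ k, f k = ∑ s ∈ σ, q s * s k
  cover : ∀ v, Adm M a v → ∃ σ ∈ S, InC σ v
  lin : ∀ σ ∈ S, ∃ u : Fin r → ℚ, ∀ v, Adm M a v → InC σ v → 1 - c v = ∑ k, u k * v k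

variable {M : Fin R → ℕ} {a : Fin R → Fin r → ℕ} {S : Finset (Finset (Fin r → ℕ))}
  {c : (Fin r → ℕ) → ℚ}

theorem FanC.ne (h : FanC M a S c) (hr : 1 ≤ r) {σ : Finset (Fin r → ℕ)} (hσ : σ ∈ S) :
    σ.Nonempty := by
  by_contra hcon
  rw [Finset.not_nonempty_iff_eq_empty] at hcon
  obtain ⟨q, hq⟩ := h.full σ hσ fun _ => 1
  have h1 := hq ⟨0, hr⟩
  rw [hcon, Finset.sum_empty] at h1
  exact one_ne_zero h1

theorem inC_mem {σ : Finset (Fin r → ℕ)} {s : Fin r → ℕ} (hs : s ∈ σ) : InC σ s := by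
  classical
  refine ⟨fun t => if t = s then 1 else 0, fun t => by dsimp only; split_ifs <;> norm_num,
    fun k => ?_⟩
  rw [Finset.sum_eq_single s]
  · dsimp only
    rw [if_pos rfl, one_mul]
  · intro t _ ht
    dsimp only
    rw [if_neg ht, zero_mul]
  · intro h
    exact absurd hs h

theorem adm_add {v w : Fin r → ℕ} (hv : Adm M a v) (hw : Adm M a w) : Adm M a (v + w) := by
  refine ⟨?_, fun j => ?_⟩
  · intro h0
    apply hv.1
    funext k
    have h1 := congrFun h0 k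
    simp only [Pi.add_apply, Pi.zero_apply] at h1 ⊢
    omega
  · have h1 : ∑ i, a j i * (v + w) i = ∑ i, a j i * v i + ∑ i, a j i * w i := by
      simp only [Pi.add_apply, mul_add, Finset.sum_add_distrib]
    rw [h1]
    exact dvd_add (hv.2 j) (hw.2 j)

theorem adm_smul {v : Fin r → ℕ} (hv : Adm M a v) {k : ℕ} (hk : 1 ≤ k) : Adm M a (k • v) := by
  induction k, hk using Nat.le_induction with
  | base => rwa [one_smul]
  | succ k _ ih =>
    rw [succ_nsmul]
    exact adm_add ih hv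

/-- the interior vector of a cone -/
def vσ (σ : Finset (Fin r → ℕ)) : Fin r → ℕ := fun k => ∑ s ∈ σ, s k

theorem inC_vσ (σ : Finset (Fin r → ℕ)) : InC σ (vσ σ) :=
  ⟨fun _ => 1, fun _ => zero_le_one, fun k => by
    unfold vσ
    push_cast
    exact Finset.sum_congr rfl fun s _ => (one_mul _).symm⟩

theorem FanC.adm_vσ (h : FanC M a S c) (hr : 1 ≤ r) {σ : Finset (Fin r → ℕ)} (hσ : σ ∈ S) :
    Adm M a (vσ σ) := by
  classical
  obtain ⟨s0, hs0⟩ := h.ne hr hσ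
  refine ⟨?_, fun j => ?_⟩
  · intro h0
    apply (h.adm σ hσ s0 hs0).1
    funext k
    have h1 := congrFun h0 k
    unfold vσ at h1
    rw [Pi.zero_apply, Finset.sum_eq_zero_iff] at h1
    exact h1 s0 hs0
  · have h1 : ∑ i, a j i * vσ σ i = ∑ s ∈ σ, ∑ i, a j i * s i := by
      unfold vσ
      rw [Finset.sum_comm]
      exact Finset.sum_congr rfl fun i _ => Finset.mul_sum _ _ _
    rw [h1]
    exact Finset.dvd_sum fun s hs => (h.adm σ hσ s hs).2 j

/-- the linear functions of Cartier divisors are in the dual lattice -/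
theorem FanC.int (h : FanC M a S c) (hr : 1 ≤ r) {ρ : ℕ}
    (hρ : ∀ v, Adm M a v → ∃ z : ℤ, (ρ : ℚ) * c v = z) {σ : Finset (Fin r → ℕ)} (hσ : σ ∈ S)
    {u : Fin r → ℚ} (hu : ∀ v, Adm M a v → InC σ v → 1 - c v = ∑ k, u k * v k)
    (v : Fin r → ℤ) (hv : ∀ j, (M j : ℤ) ∣ ∑ i, (a j i : ℤ) * v i) :
    ∃ z : ℤ, ∑ i, (ρ * u i) * v i = z := by
  classical
  obtain ⟨q, hq⟩ := h.full σ hσ fun k => (v k : ℚ)
  obtain ⟨N, hN⟩ := exists_nat_gt (∑ s ∈ σ, |q s|)
  have hqN : ∀ s ∈ σ, 0 < q s + N := by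
    intro s hs
    have h1 := Finset.single_le_sum (f := fun s => |q s|) (fun _ _ => abs_nonneg _) hs
    have h2 := neg_abs_le (q s)
    linarith
  -- the vector in the cone
  have hw : ∀ k, ((v k + N * vσ σ k : ℤ) : ℚ) = ∑ s ∈ σ, (q s + N) * s k := by
    intro k
    push_cast
    rw [hq k]
    unfold vσ
    push_cast
    rw [Finset.mul_sum, ← Finset.sum_add_distrib]
    exact Finset.sum_congr rfl fun s _ => by ring
  have hw0 : ∀ k, 0 ≤ v k + N * (vσ σ k : ℤ) := by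
    intro k
    have h1 : (0 : ℚ) ≤ ((v k + N * vσ σ k : ℤ) : ℚ) := by
      rw [hw k]
      exact Finset.sum_nonneg fun s hs => mul_nonneg (hqN s hs).le (by positivity)
    exact_mod_cast h1
  obtain ⟨w, hwd⟩ : ∃ w : Fin r → ℕ, ∀ k, (w k : ℤ) = v k + N * vσ σ k :=
    ⟨fun k => (v k + N * vσ σ k).toNat, fun k => Int.toNat_of_nonneg (hw0 k)⟩
  have hwq : ∀ k, (w k : ℚ) = ∑ s ∈ σ, (q s + N) * s k := by
    intro k
    rw [← hw k, ← hwd k]
    push_cast
    rfl
  have hwC : InC σ w := by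
    refine ⟨fun s => if s ∈ σ then q s + N else 0, fun s => ?_, fun k => ?_⟩
    · dsimp only
      split_ifs with hs
      · exact (hqN s hs).le
      · exact le_rfl
    · rw [hwq k]
      refine Finset.sum_congr rfl fun s hs => ?_
      dsimp only
      rw [if_pos hs]
  have hwA : Adm M a w := by
    obtain ⟨s0, hs0⟩ := h.ne hr hσ
    refine ⟨?_, fun j => ?_⟩
    · intro h0
      have h1 : ∀ k, s0 k = 0 := by
        intro k
        have h2 := hwq k
        rw [h0, Pi.zero_apply, Nat.cast_zero] at h2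
        have h3 := (Finset.sum_eq_zero_iff_of_nonneg fun s hs =>
          mul_nonneg (hqN s hs).le (by positivity : (0 : ℚ) ≤ s k)).1 h2.symm s0 hs0
        have h4 := (mul_eq_zero.1 h3).resolve_left (hqN s0 hs0).ne'
        exact_mod_cast h4
      exact (h.adm σ hσ s0 hs0).1 (funext h1)
    · have h1 : ((∑ i, a j i * w i : ℕ) : ℤ) = ∑ i, (a j i : ℤ) * v i +
          N * ((∑ i, a j i * vσ σ i : ℕ) : ℤ) := by
        push_cast
        rw [Finset.mul_sum, ← Finset.sum_add_distrib]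
        refine Finset.sum_congr rfl fun i _ => ?_
        rw [hwd]
        ring
      have h2 : (M j : ℤ) ∣ ((∑ i, a j i * w i : ℕ) : ℤ) := by
        rw [h1]
        refine dvd_add (hv j) (Dvd.dvd.mul_left ?_ _)
        exact_mod_cast (h.adm_vσ hr hσ).2 j
      exact_mod_cast h2
  obtain ⟨z1, hz1⟩ := hρ w hwA
  obtain ⟨z2, hz2⟩ := hρ (vσ σ) (h.adm_vσ hr hσ)
  have h1 := hu w hwA hwC
  have h2 := hu (vσ σ) (h.adm_vσ hr hσ) (inC_vσ σ)
  refine ⟨ρ - z1 - N * (ρ - z2), ?_⟩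
  have h3 : ∑ i, (ρ * u i) * (v i : ℚ) = ρ * ∑ k, u k * w k - N * (ρ * ∑ k, u k * vσ σ k) := by
    rw [Finset.mul_sum, Finset.mul_sum, Finset.mul_sum, ← Finset.sum_sub_distrib]
    refine Finset.sum_congr rfl fun i _ => ?_
    have h4 : (w i : ℚ) = v i + N * vσ σ i := by exact_mod_cast hwd i
    rw [h4]
    ring
  rw [h3, ← h1, ← h2]
  push_cast
  rw [← hz1, ← hz2]
  ring

/-- points with the same values as the linear function of a cone at its interior vector -/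
theorem FanC.eq_of (h : FanC M a S c) {σ : Finset (Fin r → ℕ)} (hσ : σ ∈ S)
    {f : Fin r → ℚ} (hf : ∀ s ∈ σ, 0 ≤ ∑ k, f k * s k) (h0 : ∑ k, f k * vσ σ k = 0) : f = 0 := by
  classical
  have h1 : ∑ s ∈ σ, ∑ k, f k * s k = 0 := by
    rw [← h0, Finset.sum_comm]
    refine Finset.sum_congr rfl fun k _ => ?_
    unfold vσ
    push_cast
    rw [Finset.mul_sum]
  have h2 := (Finset.sum_eq_zero_iff_of_nonneg hf).1 h1
  obtain ⟨q, hq⟩ := h.full σ hσ f
  have h3 : ∑ k, f k * f k = 0 := by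
    calc ∑ k, f k * f k = ∑ k, f k * ∑ s ∈ σ, q s * s k :=
          Finset.sum_congr rfl fun k _ => by rw [← hq k]
      _ = ∑ s ∈ σ, q s * ∑ k, f k * s k := by
          simp only [Finset.mul_sum]
          rw [Finset.sum_comm]
          exact Finset.sum_congr rfl fun s _ => Finset.sum_congr rfl fun k _ => by ring
      _ = 0 := Finset.sum_eq_zero fun s hs => by rw [h2 s hs, mul_zero]
  funext k
  have h4 := (Finset.sum_eq_zero_iff_of_nonneg fun k _ => mul_self_nonneg (f k)).1 h3 k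
    (Finset.mem_univ k)
  exact mul_self_eq_zero.1 h4

end cone

variable {r R N' : ℕ} {n : Fin r → ℕ} {K : Type} [Field K] [Algebra ℂ K]
  {e : ((i : Fin r) × Fin (n i)) ≃ Fin (N' + 1)} {Φ : Blk ℂ (N' + 1) r} {C : Cvr Φ K R}
  {dF : Fin r → ℕ} {x : ∀ i, Fin (n i + 1) → K} {F : ∀ i, MvPolynomial (Fin (n i + 1)) ℂ}
  {c : (Fin r → ℕ) → ℚ} {δ : Place ℂ K → ℚ}

/-- the order of a section of a lattice point -/
theorem sH_low (H : Mon e C dF x F) {P : Place ℂ K} {α : Fin r → ℤ} {l' : ∀ i, Fin (n i + 1)}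
    {v : Fin r → ℕ} (h : DatH P dF x F α l' v) {m : ℕ} {y : Fin r → ℤ}
    (hy : ∀ i, (dF i : ℤ) * y i ≤ ((dF i : ℤ) - n i - 1) * m) (l : ∀ i, Fin (n i + 1))
    {D : Fin (N' + 1) → Derivation ℂ K K} (hD : om e D x ≠ 0) :
    m * P.ord (om e D x) - m * ∑ i, ((n i : ℤ) + 1) * α i + ∑ k, (v k : ℤ) * y k -
      m * ∑ i, (v i : ℤ) ≤ P.ord (sH e dF x F m y l D) := by
  unfold sH
  rw [P.ord_mul (pow_ne_zero _ hD) (fH_ne H _ _ _), P.ord_pow, ord_fH H h]
  have h3 : ∑ i, (-(((n i : ℤ) + 1) * α i * m) + (y i - m) * v i) ≤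
      ∑ i, ((y i - m) * (dF i * α i + v i) +
      (((dF i : ℤ) - n i - 1) * m - dF i * y i) * P.ord (x i (l i))) := by
    refine Finset.sum_le_sum fun i _ => ?_
    have h4 := mul_le_mul_of_nonneg_left (h.h1 i (l i)) (sub_nonneg.2 (hy i))
    linarith
  refine le_trans (le_of_eq ?_) (add_le_add_right h3 _)
  rw [Finset.sum_add_distrib]
  have h5 : ∑ i, -(((n i : ℤ) + 1) * α i * m) = -(m * ∑ i, ((n i : ℤ) + 1) * α i) := by
    rw [Finset.sum_neg_distrib, Finset.mul_sum]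
    congr 1
    exact Finset.sum_congr rfl fun i _ => by ring
  have h6 : ∑ i, (y i - m) * (v i : ℤ) = ∑ i, (v i : ℤ) * y i - m * ∑ i, (v i : ℤ) := by
    rw [Finset.mul_sum, ← Finset.sum_sub_distrib]
    exact Finset.sum_congr rfl fun i _ => by ring
  rw [h5, h6]
  ring

/-- **Base point freeness.** -/
theorem free_of_nef (H : Mon e C dF x F) (hr : 1 ≤ r) (hdF : ∀ i, 1 ≤ dF i) (hΦ : Smo Φ)
    (hcf : CoefH C c δ) {μ' : Place ℂ K → Fin r → ℕ} (hvv : ∀ P v, MultH C P v → v = μ' P)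
    {S : Finset (Finset (Fin r → ℕ))} (hS : FanC C.M C.a S c) {ρ : ℕ} (hρ1 : 1 ≤ ρ)
    (hρ : ∀ v, Adm C.M C.a v → ∃ z : ℤ, (ρ : ℚ) * c v = z) (hn : BNef (N' + 1) δ) :
    ∀ P : Place ℂ K, Divisorial (N' + 1) P → ∃ ω, BSec (N' + 1) δ {1} ρ 1 ω ∧
      ∃ D, (∀ c, DerReg P (D c)) ∧ ω D ≠ 0 ∧ (P.ord (ω D) : ℚ) ≤ - (ρ * δ P) := by
  classical
  -- the hypotheses of the theorem on the asymptotic orders
  have hmul : ∀ (i : Fin 1) v (k : ℕ), 1 ≤ k → Adm C.M C.a v →
      1 - (fun _ : Fin 1 => c) i (k • v) ≤ k * (1 - (fun _ : Fin 1 => c) i v) := by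
    intro _ v k hk hv
    obtain ⟨σ, hσ, w, hw, hwv⟩ := hS.cover v hv
    obtain ⟨u, hu⟩ := hS.lin σ hσ
    have h1 := hu v hv ⟨w, hw, hwv⟩
    have h2 := hu (k • v) (adm_smul hv hk) ⟨fun s => k * w s, fun s => mul_nonneg (by positivity)
      (hw s), fun j => by
        simp only [Pi.smul_apply, smul_eq_mul]
        push_cast
        rw [hwv j, Finset.mul_sum]
        exact Finset.sum_congr rfl fun s _ => by ring⟩
    dsimp only
    rw [h1, h2, Finset.mul_sum]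
    refine le_of_eq (Finset.sum_congr rfl fun j _ => ?_)
    simp only [Pi.smul_apply, smul_eq_mul]
    push_cast
    ring
  have hTadm : ∀ s ∈ S.biUnion id, Adm C.M C.a s := by
    intro s hs
    obtain ⟨σ, hσ, hsσ⟩ := Finset.mem_biUnion.1 hs
    exact hS.adm σ hσ s hsσ
  have hTgen : ∀ v, Adm C.M C.a v → ∃ w : (Fin r → ℕ) → ℚ, (∀ s, 0 ≤ w s) ∧
      (∀ k, ∑ s ∈ S.biUnion id, w s * s k ≤ v k) ∧ ∀ i : Fin 1, 1 - (fun _ : Fin 1 => c) i v ≤
        ∑ s ∈ S.biUnion id, w s * (1 - (fun _ : Fin 1 => c) i s) := by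
    intro v hv
    obtain ⟨σ, hσ, w, hw, hwv⟩ := hS.cover v hv
    obtain ⟨u, hu⟩ := hS.lin σ hσ
    have hsub : σ ⊆ S.biUnion id := fun s hs => Finset.mem_biUnion.2 ⟨σ, hσ, hs⟩
    have hsum : ∀ f : (Fin r → ℕ) → ℚ, ∑ s ∈ S.biUnion id, (if s ∈ σ then w s else 0) * f s =
        ∑ s ∈ σ, w s * f s := by
      intro f
      rw [← Finset.sum_subset hsub]
      · exact Finset.sum_congr rfl fun s hs => by rw [if_pos hs]
      · intro s _ hs
        rw [if_neg hs, zero_mul]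
    refine ⟨fun s => if s ∈ σ then w s else 0, fun s => ?_, fun k => ?_, fun _ => ?_⟩
    · dsimp only
      split_ifs
      · exact hw s
      · exact le_rfl
    · rw [hsum fun s => (s k : ℚ), hwv k]
    · dsimp only
      rw [hsum fun s => 1 - c s, hu v hv ⟨w, hw, hwv⟩]
      have h1 : ∀ s ∈ σ, w s * (1 - c s) = ∑ k, u k * (w s * s k) := by
        intro s hs
        rw [hu s (hS.adm σ hσ s hs) (inC_mem hs), Finset.mul_sum]
        exact Finset.sum_congr rfl fun k _ => by ring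
      rw [Finset.sum_congr rfl h1, Finset.sum_comm]
      refine le_of_eq (Finset.sum_congr rfl fun k _ => ?_)
      rw [hwv k, Finset.mul_sum]
  obtain ⟨N0, g, ω, hg, hex, hord, D0, hD0, hpl⟩ := geoBx (p := 1) (c := fun _ => c)
    (δ := fun _ => δ) H hdF hΦ (fun _ => hcf) hmul hTadm hTgen
  have hord' : ∀ (P : Place ℂ K) (S : Finset K) (D : Fin (N' + 1) → Derivation ℂ K K),
      ∃ C1 : ℕ, ∀ (μ : Fin 1 →₀ ℕ) (j : ℕ) (η : (Fin (N' + 1) → Derivation ℂ K K) → K), μ ≠ 0 →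
          ASec (N' + 1) (fun _ : Fin 1 => δ) S μ j η → η D = 0 ∨ ((∀ b, ω b D ≠ 0) ∧
            ∃ e : Fin N0 → ℕ,
              (∀ i, |∑ b, (e b : ℤ) * g b i - μ i| ≤ C1 * (j + 1)) ∧
              ∑ b, (e b : ℤ) * P.ord (ω b D) ≤ P.ord (η D) + C1 * (j + 1)) := by
    intro P S D
    obtain ⟨C1, hC1⟩ := hord P S D
    exact ⟨C1, fun μ j η hμ hη => hC1 μ j η hμ (asec_iff.1 hη)⟩
  have hnR : NefR (N' + 1) (fun _ : Fin 1 => δ) fun _ => 1 := by
    obtain ⟨SS, hSS, hnf⟩ := hn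
    refine ⟨SS, hSS, fun M hM => ?_⟩
    obtain ⟨j, hj, hjP⟩ := hnf M hM
    refine ⟨j, hj, fun P hP => ?_⟩
    obtain ⟨η, hη, D, hD, hηD, hle⟩ := hjP P hP
    refine ⟨Finsupp.single 0 (j * M), fun i => ?_, η, ?_, D, hD, hηD, fun s hs hs0 => ?_⟩
    · rw [Subsingleton.elim i 0, Finsupp.single_eq_same]
      push_cast
      rw [mul_one, sub_self, abs_zero]
      positivity
    · refine ⟨?_, fun P hP D hD => ?_⟩
      · rw [Fin.sum_univ_one, Finsupp.single_eq_same]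
        exact hη.1
      · rw [Fin.sum_univ_one, Finsupp.single_eq_same]
        exact hη.2 P hP D hD
    · rw [Fin.sum_univ_one, Finsupp.single_eq_same]
      push_cast
      exact hle s hs hs0
  have hx0 : ∏ i, x i 0 ^ (n i + 1) ≠ 0 :=
    Finset.prod_ne_zero_iff.2 fun i _ => pow_ne_zero _ (H.hx i 0)
  -- the sections at a place
  have hnv : ∀ P : Place ℂ K, Divisorial (N' + 1) P → ∃ (b : Fin N0)
      (D : Fin (N' + 1) → Derivation ℂ K K), (∀ c, DerReg P (D c)) ∧ ω b D ≠ 0 ∧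
      (P.ord (ω b D) : ℚ) ≤ - (((∑ i, g b i : ℕ) : ℚ) * δ P) := by
    intro P hP
    obtain ⟨t, ht, hlt, hnv⟩ := semi_of_nefR hx0 hpl hg hord' (fun _ => 1)
      (fun _ => zero_le_one) hnR P hP
    have h1 : ∃ b, t b ≠ 0 := by
      by_contra hcon
      push Not at hcon
      have h2 := hlt 0
      rw [Finset.sum_eq_zero fun b _ => by rw [hcon b, zero_mul]] at h2
      exact one_ne_zero h2
    obtain ⟨b, hb⟩ := h1
    obtain ⟨D, hD, hne, hle⟩ := hnv b hb
    refine ⟨b, D, hD, hne, ?_⟩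
    rw [Fin.sum_univ_one] at hle ⊢
    exact hle
  have hgpos : ∀ b, 1 ≤ ∑ i, g b i := by
    intro b
    rw [Fin.sum_univ_one]
    refine Nat.one_le_iff_ne_zero.2 fun h0 => (hg b).1 (Finsupp.ext fun i => ?_)
    rw [Subsingleton.elim i 0, h0]
    rfl
  -- the linear functions of the cones
  have hcone : ∀ σ ∈ S, ∀ u : Fin r → ℚ, (∀ v, Adm C.M C.a v → InC σ v →
      1 - c v = ∑ k, u k * v k) → (∀ t, (dF t : ℚ) * u t ≤ (dF t : ℚ) - n t - 1) ∧
      ∀ v, Adm C.M C.a v → 1 - c v ≤ ∑ k, u k * v k := by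
    intro σ hσ u hu
    have hadm0 := hS.adm_vσ hr hσ
    obtain ⟨X, hX⟩ := C.exists_dir hadm0.1 hadm0.2
    obtain ⟨P, v', r', hP, hPv, hadm', hr', hXr⟩ := exists_place C hΦ X
    rw [hX] at hXr
    obtain ⟨b, D, hD, hne, hle⟩ := hnv P hP
    obtain ⟨y, l, hωb, hdeg, hadmy⟩ := hex b
    obtain ⟨m, hm⟩ : ∃ m : ℕ, m = ∑ i, g b i := ⟨_, rfl⟩
    rw [← hm] at hle hωb hdeg
    have hm1 : 1 ≤ m := by
      rw [hm]
      exact hgpos b
    have hadmy' : ∀ v, Adm C.M C.a v → (m : ℚ) * (1 - c v) ≤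
        ((∑ k, (v k : ℤ) * y k : ℤ) : ℚ) := by
      intro v hv
      have h1 := hadmy v hv
      rw [Fin.sum_univ_one] at h1
      rw [hm, Fin.sum_univ_one]
      exact h1
    obtain ⟨α, l', v, hdat⟩ := H.exists_dat P
    have hvv' : v = v' := (hvv P v (hdat.multH H)).trans (hvv P v' hPv).symm
    subst hvv'
    rw [hωb] at hne hle
    have hom0 : om e D x ≠ 0 := by
      intro h0
      apply hne
      unfold sH
      rw [h0, zero_pow (by omega), zero_mul]
    have hlow := sH_low H hdat hdeg l hom0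
    have hom := om_ord e H.hn P D hD H.hx (by rw [← H.hZ]; exact C.hZ) H.hs H.hh H.hFx α hdat.h1 l'
      hdat.h2 v hdat.hv
    rw [if_neg hadm'.1] at hom
    have hom1 := hom.resolve_left hom0
    have hmq : (0 : ℚ) < m := by exact_mod_cast hm1
    have hδP : δ P = c v := hcf.hδ P v (hdat.multH H)
    rw [hδP] at hle
    -- the value of `y` at the multiplicities
    have hyv : ((∑ k, (v k : ℤ) * y k : ℤ) : ℚ) ≤ m * (1 - c v) := by
      have h1 : (((m * P.ord (om e D x) - m * ∑ i, ((n i : ℤ) + 1) * α i +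
          ∑ k, (v k : ℤ) * y k - m * ∑ i, (v i : ℤ) : ℤ)) : ℚ) ≤ - (m * c v) := by
        refine le_trans ?_ hle
        exact_mod_cast hlow
      have h2 : (m : ℤ) * (∑ i, ((n i : ℤ) + 1) * α i + ∑ i, (v i : ℤ) - 1) ≤
          m * P.ord (om e D x) := mul_le_mul_of_nonneg_left hom1 (by positivity)
      have h3 : (((m : ℤ) * (∑ i, ((n i : ℤ) + 1) * α i + ∑ i, (v i : ℤ) - 1) : ℤ) : ℚ) ≤
          ((m * P.ord (om e D x) : ℤ) : ℚ) := by exact_mod_cast h2
      rw [Int.cast_sub, Int.cast_add, Int.cast_sub] at h1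
      rw [mul_sub, mul_add, Int.cast_sub, Int.cast_add] at h3
      push_cast at h1 h3 ⊢
      linarith
    -- `v` is in the cone
    have hvC : InC σ v := by
      obtain ⟨w, hw, hwv⟩ := inC_vσ σ
      have hr'q : (0 : ℚ) < r' := by exact_mod_cast hr'
      refine ⟨fun s => w s / r', fun s => div_nonneg (hw s) hr'q.le, fun k => ?_⟩
      have h1 := hwv k
      rw [hXr, Pi.smul_apply, smul_eq_mul, Nat.cast_mul] at h1
      have h2 : ∑ s ∈ σ, w s / r' * (s k : ℚ) = (∑ s ∈ σ, w s * (s k : ℚ)) / r' := by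
        rw [Finset.sum_div]
        exact Finset.sum_congr rfl fun s _ => by ring
      rw [h2, ← h1]
      field_simp
    have huv := hu v hadm' hvC
    have hyu : (fun k => (y k : ℚ) - m * u k) = 0 := by
      have hval : ∀ v : Fin r → ℕ, ∑ k, ((y k : ℚ) - m * u k) * v k =
          ((∑ k, (v k : ℤ) * y k : ℤ) : ℚ) - m * ∑ k, u k * v k := by
        intro v
        push_cast
        rw [Finset.mul_sum, ← Finset.sum_sub_distrib]
        exact Finset.sum_congr rfl fun k _ => by ring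
      refine hS.eq_of hσ (fun s hs => ?_) ?_
      · rw [hval, ← hu s (hS.adm σ hσ s hs) (inC_mem hs)]
        linarith [hadmy' s (hS.adm σ hσ s hs)]
      · have h1 : ∑ k, ((y k : ℚ) - m * u k) * v k = 0 := by
          rw [hval, ← huv]
          linarith [hadmy' v hadm']
        have h2 : ∑ k, ((y k : ℚ) - m * u k) * vσ σ k = r' * ∑ k, ((y k : ℚ) - m * u k) * v k := by
          rw [hXr, Finset.mul_sum]
          refine Finset.sum_congr rfl fun k _ => ?_
          simp only [Pi.smul_apply, smul_eq_mul]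
          push_cast
          ring
        rw [h2, h1, mul_zero]
    have hyk : ∀ k, (y k : ℚ) = m * u k := by
      intro k
      have h1 := congrFun hyu k
      simp only [Pi.zero_apply] at h1
      linarith
    refine ⟨fun t => ?_, fun v hv => ?_⟩
    · have h1 := hdeg t
      have h2 : (((dF t : ℤ) * y t : ℤ) : ℚ) ≤ ((((dF t : ℤ) - n t - 1) * (m : ℤ) : ℤ) : ℚ) := by
        exact_mod_cast h1
      push_cast at h2
      rw [hyk] at h2
      have h3 : (m : ℚ) * (dF t * u t) ≤ m * ((dF t : ℚ) - n t - 1) := by linarith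
      exact le_of_mul_le_mul_left h3 hmq
    · have h1 := hadmy' v hv
      have h2 : ((∑ k, (v k : ℤ) * y k : ℤ) : ℚ) = m * ∑ k, u k * v k := by
        push_cast
        rw [Finset.mul_sum]
        refine Finset.sum_congr rfl fun k _ => ?_
        rw [hyk]
        ring
      rw [h2] at h1
      exact le_of_mul_le_mul_left h1 hmq
  -- the section
  intro P hP
  obtain ⟨b, D, hD, hne, hle⟩ := hnv P hP
  obtain ⟨y, l, hωb, hdeg, hadmy⟩ := hex b
  obtain ⟨m, hm⟩ : ∃ m : ℕ, m = ∑ i, g b i := ⟨_, rfl⟩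
  rw [← hm] at hle hωb hdeg
  have hm1 : 1 ≤ m := by
    rw [hm]
    exact hgpos b
  have hmq : (0 : ℚ) < m := by exact_mod_cast hm1
  obtain ⟨α, l', v, hdat⟩ := H.exists_dat P
  rw [hωb] at hne hle
  have hom0 : om e D x ≠ 0 := by
    intro h0
    apply hne
    unfold sH
    rw [h0, zero_pow (by omega), zero_mul]
  have hlow := sH_low H hdat hdeg l hom0
  have hδP : δ P = c v := hcf.hδ P v (hdat.multH H)
  rw [hδP] at hle
  have hbd : (P.ord (om e D x) : ℚ) ≤ ∑ i, ((n i : ℚ) + 1) * α i + ∑ i, (v i : ℚ) -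
      (if v = 0 then 0 else 1) := by
    have h1 : (((m * P.ord (om e D x) - m * ∑ i, ((n i : ℤ) + 1) * α i +
        ∑ k, (v k : ℤ) * y k - m * ∑ i, (v i : ℤ) : ℤ)) : ℚ) ≤ - (m * c v) := by
      refine le_trans ?_ hle
      exact_mod_cast hlow
    rw [Int.cast_sub, Int.cast_add, Int.cast_sub] at h1
    have h2 : (m : ℚ) * ((if v = 0 then 0 else 1) - c v) ≤
        ((∑ k, (v k : ℤ) * y k : ℤ) : ℚ) := by
      by_cases hv : v = 0
      · rw [if_pos hv, hv, hcf.h0]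
        simp
      · rw [if_neg hv]
        have h1 := hadmy v (hdat.adm H hv)
        rw [Fin.sum_univ_one] at h1
        rw [hm, Fin.sum_univ_one]
        exact h1
    push_cast at h1 h2
    have h3 : (m : ℚ) * (P.ord (om e D x) : ℚ) ≤ m * (∑ i, ((n i : ℚ) + 1) * α i +
        ∑ i, (v i : ℚ) - (if v = 0 then 0 else 1)) := by
      have h4 : (m : ℚ) * (∑ i, ((n i : ℚ) + 1) * α i + ∑ i, (v i : ℚ) -
          (if v = 0 then 0 else 1)) = m * ∑ i, ((n i : ℚ) + 1) * α i + m * ∑ i, (v i : ℚ) -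
            m * (if v = 0 then 0 else 1) := by ring
      rw [h4]
      linarith
    exact le_of_mul_le_mul_left h3 hmq
  -- the cone
  obtain ⟨σ, hσ, hvσ⟩ : ∃ σ ∈ S, v ≠ 0 → InC σ v := by
    by_cases hv : v = 0
    · obtain ⟨σ, hσ, -⟩ := hS.cover _ (adm_single C.hM C.a ⟨0, hr⟩)
      exact ⟨σ, hσ, fun h => absurd hv h⟩
    · obtain ⟨σ, hσ, h⟩ := hS.cover v (hdat.adm H hv)
      exact ⟨σ, hσ, fun _ => h⟩
  obtain ⟨u, hu⟩ := hS.lin σ hσ
  obtain ⟨hud, hua⟩ := hcone σ hσ u hu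
  obtain ⟨y', k, hyk⟩ := dual_lattice C.hM C.a (fun i => ρ * u i)
    (fun v hv => hS.int hr hρ hσ hu v hv)
  have hρq : (0 : ℚ) ≤ ρ := by positivity
  have huL : ∀ i, uL C y' k i = ρ * u i := fun i => (hyk i).symm
  have hsumL : ∀ v : Fin r → ℕ, ∑ i, (v i : ℚ) * uL C y' k i = ρ * ∑ k, u k * v k := by
    intro v
    rw [Finset.mul_sum]
    refine Finset.sum_congr rfl fun i _ => ?_
    rw [huL]
    ring
  refine ⟨sL e C dF x F ρ y' k l', sL_sec H hcf (fun i => ?_) (fun v hv => ?_) l', D, hD,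
    mul_ne_zero (pow_ne_zero _ hom0) (fL_ne H _ _ _ _), ?_⟩
  · rw [huL]
    have h1 := mul_le_mul_of_nonneg_left (hud i) hρq
    linarith
  · rw [hsumL]
    exact mul_le_mul_of_nonneg_left (hua v hv) hρq
  · unfold sL
    rw [P.ord_mul (pow_ne_zero _ hom0) (fL_ne H _ _ _ _), P.ord_pow, Int.cast_add,
      ord_fL H hdat, hsumL, hδP]
    have h1 : ∑ i, (dg C dF n ρ y' k i : ℚ) * (P.ord (x i (l' i)) - α i) = 0 := by
      refine Finset.sum_eq_zero fun i _ => ?_
      rw [hdat.h2, sub_self, mul_zero]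
    rw [h1]
    push_cast
    have h2 := mul_le_mul_of_nonneg_left hbd hρq
    have h3 : (ρ : ℚ) * ∑ k, u k * v k ≤ ρ * ((if v = 0 then 0 else 1) - c v) := by
      by_cases hv : v = 0
      · rw [if_pos hv, hv, hcf.h0]
        simp
      · rw [if_neg hv, hu v (hdat.adm H hv) (hvσ hv)]
    have h4 : (ρ : ℚ) * (∑ i, ((n i : ℚ) + 1) * α i + ∑ i, (v i : ℚ) -
        (if v = 0 then 0 else 1)) = ρ * ∑ i, ((n i : ℚ) + 1) * α i + ρ * ∑ i, (v i : ℚ) -
          ρ * (if v = 0 then 0 else 1) := by ring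
    rw [h4] at h2
    linarith

end Pool.Agent.Q57.GE
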