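import Mathlib

/-!
The dual lattice of the lattice given by congruences, and full cones.
-/

set_option autoImplicit false
set_option linter.unusedSectionVars false

namespace Pool.Agent.Q57.GE

variable {r R : ℕ}

/-- **The dual lattice.** -/
theorem dual_lattice {m : Fin R → ℕ} (hm : ∀ j, 0 < m j) (a : Fin R → Fin r → ℕ) (u : Fin r → ℚ)
    (hu : ∀ v : Fin r → ℤ, (∀ j, (m j : ℤ) ∣ ∑ i, (a j i : ℤ) * v i) →
      ∃ z : ℤ, ∑ i, u i * v i = z) :
    ∃ (y : Fin r → ℤ) (k : Fin R → ℤ), ∀ i, u i = y i + ∑ j, (k j : ℚ) * (a j i / m j) := by
  classical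
  have key : ∀ (J : Finset (Fin R)) (u : Fin r → ℚ),
      (∀ v : Fin r → ℤ, (∀ j ∈ J, (m j : ℤ) ∣ ∑ i, (a j i : ℤ) * v i) →
        ∃ z : ℤ, ∑ i, u i * v i = z) →
      ∃ (y : Fin r → ℤ) (k : Fin R → ℤ), ∀ i, u i = y i + ∑ j ∈ J, (k j : ℚ) * (a j i / m j) := by
    intro J
    induction J using Finset.induction_on with
    | empty =>
      intro u hu
      have h1 : ∀ i, ∃ z : ℤ, u i = z := by
        intro i
        obtain ⟨z, hz⟩ := hu (Pi.single i 1) (by simp)
        refine ⟨z, ?_⟩
        rw [← hz, Finset.sum_eq_single i]
        · simp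
        · intro b _ hb
          rw [Pi.single_eq_of_ne hb]
          simp
        · intro h
          exact absurd (Finset.mem_univ _) h
      choose y hy using h1
      exact ⟨y, 0, fun i => by rw [hy i]; simp⟩
    | insert j J hj ih =>
      intro u hu
      -- the image of the lattice
      let I : Ideal ℤ :=
        { carrier := {x | ∃ v : Fin r → ℤ, (∀ j ∈ J, (m j : ℤ) ∣ ∑ i, (a j i : ℤ) * v i) ∧
            ∃ s : ℤ, x = ∑ i, (a j i : ℤ) * v i + m j * s}
          add_mem' := by
            rintro x y ⟨v, hv, s, rfl⟩ ⟨w, hw, t, rfl⟩
            refine ⟨v + w, fun j hj => ?_, s + t, ?_⟩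
            · simp only [Pi.add_apply, mul_add, Finset.sum_add_distrib]
              exact dvd_add (hv j hj) (hw j hj)
            · simp only [Pi.add_apply, mul_add, Finset.sum_add_distrib]
              ring
          zero_mem' := ⟨0, fun j _ => by simp, 0, by simp⟩
          smul_mem' := by
            rintro q x ⟨v, hv, s, rfl⟩
            refine ⟨q • v, fun j hj => ?_, q * s, ?_⟩
            · simp only [Pi.smul_apply, smul_eq_mul]
              have h1 : ∑ i, (a j i : ℤ) * (q * v i) = q * ∑ i, (a j i : ℤ) * v i := by
                rw [Finset.mul_sum]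
                exact Finset.sum_congr rfl fun i _ => by ring
              rw [h1]
              exact Dvd.dvd.mul_left (hv j hj) q
            · simp only [Pi.smul_apply, smul_eq_mul]
              have h1 : ∑ i, (a j i : ℤ) * (q * v i) = q * ∑ i, (a j i : ℤ) * v i := by
                rw [Finset.mul_sum]
                exact Finset.sum_congr rfl fun i _ => by ring
              rw [h1]
              ring }
      obtain ⟨g, hg⟩ := (IsPrincipalIdealRing.principal I).principal
      have hgI : g ∈ I := by
        rw [hg]
        exact Submodule.mem_span_singleton_self g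
      obtain ⟨v0, hv0, s0, hgv⟩ := hgI
      have hmI : (m j : ℤ) ∈ I := ⟨0, fun j _ => by simp, 1, by simp⟩
      rw [hg, Ideal.submodule_span_eq, Ideal.mem_span_singleton] at hmI
      obtain ⟨q, hq⟩ := hmI
      have hmj : (0 : ℤ) < m j := by exact_mod_cast hm j
      have hq0 : q ≠ 0 := by
        intro h0
        rw [h0, mul_zero] at hq
        omega
      -- the multiple of `v0`
      obtain ⟨t, ht⟩ := hu (q • v0) (by
        intro j' hj'
        have h1 : ∑ i, (a j' i : ℤ) * (q • v0) i = q * ∑ i, (a j' i : ℤ) * v0 i := by
          rw [Finset.mul_sum]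
          exact Finset.sum_congr rfl fun i _ => by
            simp only [Pi.smul_apply, smul_eq_mul]
            ring
        rw [h1]
        rcases Finset.mem_insert.1 hj' with h | h
        · subst h
          have h2 : ∑ i, (a j' i : ℤ) * v0 i = g - m j' * s0 := by
            rw [hgv]
            ring
          rw [h2]
          have h3 : q * (g - m j' * s0) = m j' * (1 - q * s0) := by
            rw [mul_sub, mul_comm q g, ← hq]
            ring
          rw [h3]
          exact dvd_mul_right _ _
        · exact Dvd.dvd.mul_left (hv0 j' h) q)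
      have ht' : (q : ℚ) * ∑ i, u i * v0 i = t := by
        rw [← ht, Finset.mul_sum]
        refine Finset.sum_congr rfl fun i _ => ?_
        simp only [Pi.smul_apply, smul_eq_mul]
        push_cast
        ring
      obtain ⟨y, k, hyk⟩ := ih (fun i => u i - t * (a j i / m j)) (by
        intro v hv
        -- decomposition
        have hvI : (∑ i, (a j i : ℤ) * v i) ∈ I := ⟨v, hv, 0, by ring⟩
        rw [hg, Ideal.submodule_span_eq, Ideal.mem_span_singleton] at hvI
        obtain ⟨e, he⟩ := hvI
        obtain ⟨z, hz⟩ := hu (v - e • v0) (by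
          intro j' hj'
          have h1 : ∑ i, (a j' i : ℤ) * (v - e • v0) i = ∑ i, (a j' i : ℤ) * v i -
              e * ∑ i, (a j' i : ℤ) * v0 i := by
            rw [Finset.mul_sum, ← Finset.sum_sub_distrib]
            exact Finset.sum_congr rfl fun i _ => by
              simp only [Pi.sub_apply, Pi.smul_apply, smul_eq_mul]
              ring
          rw [h1]
          rcases Finset.mem_insert.1 hj' with h | h
          · subst h
            rw [he]
            refine ⟨e * s0, ?_⟩
            have h2 : ∑ i, (a j' i : ℤ) * v0 i = g - m j' * s0 := by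
              rw [hgv]
              ring
            rw [h2]
            ring
          · exact dvd_sub (hv j' h) (Dvd.dvd.mul_left (hv0 j' h) e))
        refine ⟨z, ?_⟩
        have hmq : (m j : ℚ) = g * q := by exact_mod_cast hq
        have hmq0 : (m j : ℚ) ≠ 0 := by exact_mod_cast hmj.ne'
        have hqq0 : (q : ℚ) ≠ 0 := by exact_mod_cast hq0
        have hgg0 : (g : ℚ) ≠ 0 := by
          intro h0
          rw [h0, zero_mul] at hmq
          exact hmq0 hmq
        have h1 : ∑ i, (u i - t * (a j i / m j)) * v i = ∑ i, u i * v i -
            t / m j * ((∑ i, (a j i : ℤ) * v i : ℤ) : ℚ) := by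
          push_cast
          rw [Finset.mul_sum, ← Finset.sum_sub_distrib]
          exact Finset.sum_congr rfl fun i _ => by ring
        have h2 : ∑ i, u i * v i = z + e * ∑ i, u i * v0 i := by
          rw [← hz, Finset.mul_sum, ← Finset.sum_add_distrib]
          refine Finset.sum_congr rfl fun i _ => ?_
          simp only [Pi.sub_apply, Pi.smul_apply, smul_eq_mul]
          push_cast
          ring
        have h3 : ∑ i, u i * (v0 i : ℚ) = t / q := by
          rw [eq_div_iff hqq0, mul_comm]
          exact ht'
        rw [h1, h2, h3, he, hmq]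
        push_cast
        field_simp
        ring)
      refine ⟨y, Function.update k j t, fun i => ?_⟩
      rw [Finset.sum_insert hj, Function.update_self]
      have h1 : ∑ j' ∈ J, ((Function.update k j t j' : ℤ) : ℚ) * (a j' i / m j') =
          ∑ j' ∈ J, (k j' : ℚ) * (a j' i / m j') := by
        refine Finset.sum_congr rfl fun j' hj' => ?_
        rw [Function.update_of_ne]
        rintro rfl
        exact hj hj'
      rw [h1]
      have h2 := hyk i
      linarith
  obtain ⟨y, k, hyk⟩ := key Finset.univ u fun v hv => hu v fun j => hv j (Finset.mem_univ j)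
  exact ⟨y, k, hyk⟩

end Pool.Agent.Q57.GE
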